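import Pool.Agent.Helper12.MA.StB
import Pool.Agent.Helper12.MA.Lib

/-! # Project MA, module SVF: faces and servers -/

set_option autoImplicit false

namespace Pool.Agent.Helper17.MA

open Pool.Agent.Helper12.MA
open Pool.Agent.Helper51.AJ (IsMinor Planar Apex ExMinor Con Tch)
open Pool.Agent.Helper12.NK (rst Kc add cnt Pcy IsFace Cof plus)

private theorem svf1 (hB : StBAS) (V : Type) [Finite V] (G : SimpleGraph V) (hG : Bh G) (v t : V)
    (htv : t ≠ v) (hP : Planar (rst G {t, v}ᶜ)) (F : Set V) (hF : IsFace G {t, v}ᶜ F) :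
    ¬ ({a | G.Adj v a} \ {t} ⊆ F) := by
  intro hN
  have h3 : Kc 3 G {t, v}ᶜ := (hB V G hG).2.1 t v
  have hA : Planar (add (rst G {t, v}ᶜ) v ({a | G.Adj v a} \ {t})) :=
    nINS V G {t, v}ᶜ F ({a | G.Adj v a} \ {t}) v h3 hP hF hN (by simp)
  refine hG.hn t ((nKCA V G Set.univ).2.2.2.2.2.1 _ _ ?_ hA)
  intro a b hab
  obtain ⟨hab, ha, hb⟩ := hab
  have ha' : a ≠ t := ha
  have hb' : b ≠ t := hb
  by_cases hav : a = v
  · subst hav
    exact Or.inr (Or.inl ⟨rfl, ⟨hab, hb'⟩, (G.ne_of_adj hab).symm⟩)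
  · by_cases hbv : b = v
    · subst hbv
      exact Or.inr (Or.inr ⟨rfl, ⟨hab.symm, ha'⟩, G.ne_of_adj hab⟩)
    · refine Or.inl ⟨hab, ?_, ?_⟩
      · simp [ha', hav]
      · simp [hb', hbv]

theorem hSVF : StBAS → StSVF := by
  intro hB V _ G hG
  refine ⟨fun v t htv hP F hF => svf1 hB V G hG v t htv hP F hF, ?_⟩
  intro v w t hvw hS
  obtain ⟨htv, htw, hpl⟩ := hS
  have hmono := (nKCA V G Set.univ).2.2.2.2.2.1
  have hP : Planar (rst G {t, v}ᶜ) := by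
    refine hmono _ _ ?_ hpl
    intro a b hab
    obtain ⟨hab, ha, hb⟩ := hab
    have ha' : a ≠ t ∧ a ≠ v := by simpa using ha
    have hb' : b ≠ t ∧ b ≠ v := by simpa using hb
    exact ⟨⟨hab, fun h => ha'.2 h.1, fun h => hb'.2 h.2⟩, ha'.1, hb'.1⟩
  refine ⟨hP, ?_⟩
  have h3 : Kc 3 G {t, v}ᶜ := (hB V G hG).2.1 t v
  have hsub : {a | G.Adj v a} \ {w, t} ⊆ ({t, v}ᶜ : Set V) := by
    intro a ha
    obtain ⟨ha1, ha2⟩ := ha
    have ha2' : a ≠ w ∧ a ≠ t := by simpa using ha2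
    have : a ≠ v := (G.ne_of_adj ha1).symm
    simp [ha2'.2, this]
  have hcard : 3 ≤ ({a | G.Adj v a} \ {w, t}).ncard := by
    have h5 : 5 ≤ {a | G.Adj v a}.ncard := (hB V G hG).2.2.2.1 v
    have h1 := Set.ncard_le_ncard_sdiff_add_ncard {a | G.Adj v a} ({w, t} : Set V) (Set.toFinite _)
    have h2 : ({w, t} : Set V).ncard ≤ 2 := by
      refine le_trans (Set.ncard_insert_le _ _) ?_
      simp
    omega
  have hA : Planar (add (rst G {t, v}ᶜ) v ({a | G.Adj v a} \ {w, t})) := by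
    refine hmono _ _ ?_ hpl
    intro a b hab
    have hvw' : v ≠ w := G.ne_of_adj hvw
    rcases hab with hab | ⟨rfl, hb, hbv⟩ | ⟨rfl, ha, hav⟩
    · obtain ⟨hab, ha, hb⟩ := hab
      have ha' : a ≠ t ∧ a ≠ v := by simpa using ha
      have hb' : b ≠ t ∧ b ≠ v := by simpa using hb
      exact ⟨⟨hab, fun h => ha'.2 h.1, fun h => hb'.2 h.2⟩, ha'.1, hb'.1⟩
    · obtain ⟨hb1, hb2⟩ := hb
      have hb2' : b ≠ w ∧ b ≠ t := by simpa using hb2
      exact ⟨⟨hb1, fun h => hb2'.1 h.2, fun h => hbv h.2⟩, Ne.symm htv, hb2'.2⟩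
    · obtain ⟨ha1, ha2⟩ := ha
      have ha2' : a ≠ w ∧ a ≠ t := by simpa using ha2
      exact ⟨⟨G.adj_symm ha1, fun h => hav h.1, fun h => ha2'.1 h.1⟩, ha2'.2, Ne.symm htv⟩
  obtain ⟨m, c, hc, hN, -⟩ := nTUT V G {t, v}ᶜ ({a | G.Adj v a} \ {w, t}) v h3 hsub hcard (by simp) hA
  refine ⟨Set.range c, ⟨m, c, hc, rfl⟩, hN, ?_⟩
  intro hw
  refine svf1 hB V G hG v t htv hP (Set.range c) ⟨m, c, hc, rfl⟩ ?_
  intro a ha
  obtain ⟨ha1, ha2⟩ := ha
  by_cases haw : a = w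
  · subst haw; exact hw
  · refine hN ⟨ha1, ?_⟩
    have : a ≠ t := ha2
    simp [haw, this]

end Pool.Agent.Helper17.MA
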